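import Pool.Agent.Helper32.BL.Manifold
import Pool.Agent.Helper32.BL3.Defs
import Pool.Agent.Helper32.SP.Sphere
import Pool.Agent.Helper32.SP.Up
import Pool.Agent.Helper32.SP.Low
import Pool.Agent.Helper1.S2.Target

/-!
# BL3: the inequality for flag 3-manifolds and for order complexes
-/

open Finset Pool.Agent.Helper51.CD

namespace Pool.Agent.Helper32.BL3

open Pool.Agent.Helper51.CD.Cube Pool.Agent.Helper32.BL Pool.Agent.Helper1.S2
open Pool.Agent.Helper32.SP

variable {X : Type}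

/-- The Charney-Davis inequality with Betti numbers, from the comparison with constant coefficients
below the middle and exactness above the middle. -/
theorem cd_of_compare [Fintype X] [Nonempty X] [LinearOrder X] (G : SimpleGraph X) (n : ℕ)
    {Fm : PFam G}
    (hcmp : ∀ S : Set X, (∀ d : ℤ, d < n → hd (fam G ∅ univ)
        (fun _ => (1 : Module.End ℚ Fm.V)) d = hd (fam G ∅ univ) (tw S (Fm.s 1)) d) ∧
      hd (fam G ∅ univ) (fun _ => (1 : Module.End ℚ Fm.V)) n ≤
        hd (fam G ∅ univ) (tw S (Fm.s 1)) n)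
    (hup : ∀ (S : Set X) (d : ℤ), (n : ℤ) < d → ExAt (fam G ∅ univ) (tw S (Fm.s 1)) d) :
    0 ≤ (-1 : ℚ) ^ n * (kappa G univ - 1 + lowEuler G n) := by
  classical
  have : FiniteDimensional ℚ Fm.V := Module.Finite.of_basis Fm.b
  have : Nontrivial Fm.V := ⟨⟨Fm.b (Classical.arbitrary Fm.ι), 0, Fm.b.ne_zero _⟩⟩
  have hs : IsSys G (Fm.s 1) := Fm.sys 1
  set H : ℕ → ℤ := fun d => hd (fam G ∅ univ) (fun _ => (1 : Module.End ℚ Fm.V)) (d : ℤ) with hH
  have h0 := euler_defect (F := fam G ∅ univ) (van_ok hs ∅ univ) n H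
    (fun S d hdn => ((hcmp S).1 d (by exact_mod_cast hdn)).symm) (fun S => (hcmp S).2)
    (fun S d hdn => hup S d (by omega)) (cliquesIn G univ) (fun τ => by
      rw [mem_cliquesIn, eul_mem_fam]
      exact ⟨fun h => h.2, fun h => ⟨subset_univ _, h⟩⟩)
  have hH0 : H 0 = 0 := by
    rw [hH]
    change hd (fam G ∅ univ) (fun _ => (1 : Module.End ℚ Fm.V)) 0 = 0
    rw [hd_one, fam_eq, hd_zero (x := Classical.arbitrary X) (by
      change G.IsClique (({Classical.arbitrary X} : Finset X) : Set X)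
      simp), mul_zero]
  have hHs : ∀ j : ℕ, H (j + 1) = Module.finrank ℚ Fm.V * betti (cliqueCx G) j := by
    intro j
    rw [hH]
    change hd (fam G ∅ univ) (fun _ => (1 : Module.End ℚ Fm.V)) ((j + 1 : ℕ) : ℤ) = _
    rw [hd_one, fam_eq, hd_eq_betti]
  have e1 : ∑ d ∈ range (n + 1), (-1 : ℚ) ^ d * (H d : ℚ) =
      (Module.finrank ℚ Fm.V : ℚ) * (1 - lowEuler G n) := by
    rw [sum_range_succ', hH0]
    have : ∀ j ∈ range n, (-1 : ℚ) ^ (j + 1) * (H (j + 1) : ℚ) =
        (Module.finrank ℚ Fm.V : ℚ) * (-((-1 : ℚ) ^ j * betti (cliqueCx G) j)) := by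
      intro j _
      rw [hHs]
      push_cast
      ring
    rw [sum_congr rfl this, ← mul_sum]
    unfold lowEuler
    push_cast
    rw [sum_neg_distrib]
    ring
  rw [e1] at h0
  have hV : (0 : ℚ) < Module.finrank ℚ Fm.V := by
    have : 0 < Module.finrank ℚ Fm.V := Module.finrank_pos
    exact_mod_cast this
  change (-1 : ℚ) ^ n * ((Module.finrank ℚ Fm.V : ℚ) * (1 - lowEuler G n)) ≤
    (-1 : ℚ) ^ n * ((Module.finrank ℚ Fm.V : ℚ) * kappa G univ) at h0
  have h3 : 0 ≤ (Module.finrank ℚ Fm.V : ℚ) *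
      ((-1 : ℚ) ^ n * (kappa G univ - 1 + lowEuler G n)) := by
    have e2 : (Module.finrank ℚ Fm.V : ℚ) * ((-1 : ℚ) ^ n * (kappa G univ - 1 + lowEuler G n)) =
        (-1 : ℚ) ^ n * ((Module.finrank ℚ Fm.V : ℚ) * kappa G univ) -
        (-1 : ℚ) ^ n * ((Module.finrank ℚ Fm.V : ℚ) * (1 - lowEuler G n)) := by ring
    rw [e2]
    linarith
  exact nonneg_of_mul_nonneg_right h3 hV

theorem isCx_cliquesIn {G : SimpleGraph X} (B : Finset X) :
    IsCx G (cliquesIn G B : Set (Finset X)) := by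
  refine ⟨fun τ hτ => (mem_cliquesIn.1 hτ).2, fun τ hτ π hπ => ?_⟩
  obtain ⟨h1, h2⟩ := mem_cliquesIn.1 hτ
  exact mem_cliquesIn.2 ⟨hπ.trans h1, h2.subset (by exact_mod_cast hπ)⟩

/-- The inequality for order complexes. -/
theorem ranked_cd [Fintype X] [Nonempty X] [LinearOrder X] {G : SimpleGraph X} {n : ℕ}
    {rk : X → ℕ} (hR : Ranked G rk n)
    (hE : ∀ y, Even (rk y) → HasK G {(cliquesIn G (lowr G rk y) : Set (Finset X))})
    (hC : ∀ ρ : Finset X, G.IsClique (ρ : Set X) → ρ.Nonempty → ∀ j : ℕ, j + ρ.card < 2 * n →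
      ExactLink G ρ j) :
    0 ≤ (-1 : ℚ) ^ n * (kappa G univ - 1 + lowEuler G n) := by
  classical
  obtain ⟨Fm, hF⟩ := hasK_all (G := G)
    (𝒮 := {A | ∃ y, Even (rk y) ∧ A = (cliquesIn G (lowr G rk y) : Set (Finset X))})
    (by
      rintro A ⟨y, h1, rfl⟩
      exact isCx_cliquesIn _)
    (by
      rintro A ⟨y, h1, rfl⟩
      exact hE y h1)
  have : FiniteDimensional ℚ Fm.V := Module.Finite.of_basis Fm.b
  have hs : IsSys G (Fm.s 1) := Fm.sys 1
  have hg : ∀ y, Even (rk y) → GoodK (cliquesIn G (lowr G rk y) : Set (Finset X)) (Fm.s 1) :=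
    fun y hy => hF _ ⟨y, hy, rfl⟩
  refine cd_of_compare G n (Fm := Fm) (fun S => compareP hR hs hg hC S) fun S d hd' => ?_
  exact upperP hR hs hg n univ (fun x _ => hR.le x) (fun _ _ _ _ _ => mem_univ _) S d hd'

/-- The inequality for the nerves with the property `Nerve`. -/
theorem nerve_cd {Y : Type} [Fintype Y] [Nonempty Y] [LinearOrder Y] {H : SimpleGraph Y} {n : ℕ}
    (h : Nerve H n) : 0 ≤ (-1 : ℚ) ^ n * (kappa H univ - 1 + lowEuler H n) := by
  classical
  cases h with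
  | flag hn h =>
    subst hn
    obtain ⟨h1, h2, h3⟩ := sphere2_target h
    exact manifold_cd H 2 h1 (fun ρ h4 h5 => h2 ρ h4 h5) h3
  | barycentric P rk φ hH hlt hrk hE hC =>
    have : Fintype P := Fintype.ofEquiv Y φ
    have hR : Ranked H (fun y => rk (φ y)) n := by
      refine ⟨fun x => (hrk _).1, fun x => (hrk _).2, fun x y hxy => ?_, fun x y z hxy hyz h1 h2 => ?_⟩
      · rcases (hH x y).1 hxy with h1 | h1
        · exact (hlt _ _ h1).ne
        · exact (hlt _ _ h1).ne'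
      · have h3 : φ x < φ y := by
          rcases (hH x y).1 hxy with h4 | h4
          · exact h4
          · exact absurd (hlt _ _ h4) (by simpa using h1.le)
        have h4 : φ y < φ z := by
          rcases (hH y z).1 hyz with h5 | h5
          · exact h5
          · exact absurd (hlt _ _ h5) (by simpa using h2.le)
        exact (hH x z).2 (Or.inl (h3.trans h4))
    refine ranked_cd hR (fun y hy => ?_) hC
    have hB : ∀ x, x ∈ lowr H (fun y => rk (φ y)) y ↔ φ x ∈ {B | B < φ y} := by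
      intro x
      rw [mem_lowr]
      constructor
      · rintro ⟨h1, h2⟩
        rcases (hH x y).1 h1 with h3 | h3
        · exact h3
        · exact absurd (hlt _ _ h3) (by simpa using h2.le)
      · intro h1
        exact ⟨(hH x y).2 (Or.inl h1), hlt _ _ h1⟩
    exact (evenSphere_nerve φ.toEmbedding hH (hE (φ y) hy)
      (fun A _ => ⟨φ.symm A, φ.apply_symm_apply A⟩) hB).2 _

theorem piece_sign [Fintype X] {G : SimpleGraph X} {n : ℕ} {chi : ℤ} {r : ℚ}
    (h : Piece G n chi r) : r ≤ (-1 : ℚ) ^ n * (chi + (kappa G univ - 1)) := by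
  classical
  obtain ⟨m, hm, Y, Z, H, e, K, hK, hHK, hchi, hf, hN⟩ := h
  have h1 := nerve_cd hN
  rw [kappa_cover G H m hf] at h1
  have h2 := excess_le hHK n (univ.filter fun τ : Finset Z => τ ∈ K ∧ τ.Nonempty)
    (fun τ => by simp)
  rw [hchi] at h2
  have h3 : ((excess H e K n : ℤ) : ℚ) ≤ (-1 : ℚ) ^ n * (m * chi - lowEuler H n) := by
    unfold lowEuler
    exact_mod_cast h2
  have hm' : (0 : ℚ) < m := by exact_mod_cast hm
  rw [div_le_iff₀ hm']
  have e : (-1 : ℚ) ^ n * (chi + (kappa G univ - 1)) * m =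
      (-1 : ℚ) ^ n * (m * chi - lowEuler H n) +
      (-1 : ℚ) ^ n * (m * (kappa G univ - 1) + lowEuler H n) := by ring
  rw [e]
  linarith

open scoped Classical in
theorem BlockComplex.euler_eq (X : BlockComplex) :
    (X.euler : ℚ) = ∑ b : X.Block, ((X.chi b : ℚ) + (kappa (X.nerve b) univ - 1)) := by
  have h1 : (∑ q : X.Part, (X.chiPart q : ℚ)) =
      ∑ c : X.Corner, (X.chiPart (X.part c) : ℚ) * (1 / 2 : ℚ) ^ (X.face c).2.1.card := by
    rw [← Finset.sum_fiberwise_of_maps_to (s := univ) (t := univ) (g := X.part)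
      (fun c _ => mem_univ _)]
    refine sum_congr rfl fun q _ => ?_
    have h2 : ∑ c : X.Corner with X.part c = q, (X.chiPart (X.part c) : ℚ) *
        (1 / 2 : ℚ) ^ (X.face c).2.1.card =
        ∑ c : X.Corner with X.part c = q, (X.chiPart q : ℚ) *
        (1 / 2 : ℚ) ^ (X.face c).2.1.card := by
      refine sum_congr rfl fun c hc => ?_
      rw [(mem_filter.1 hc).2]
    rw [h2, ← mul_sum, X.fill q, mul_one]
  have h3 : ∑ c : X.Corner, (X.chiPart (X.part c) : ℚ) * (1 / 2 : ℚ) ^ (X.face c).2.1.card =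
      ∑ f : (Σ b : X.Block, {σ : Finset (X.Mirror b) // σ.Nonempty ∧
        (X.nerve b).IsClique (σ : Set (X.Mirror b))}), (-1 / 2 : ℚ) ^ f.2.1.card := by
    rw [← Finset.sum_fiberwise_of_maps_to (s := univ) (t := univ) (g := X.face)
      (fun c _ => mem_univ _)]
    refine sum_congr rfl fun f _ => ?_
    have h2 : ∑ c : X.Corner with X.face c = f, (X.chiPart (X.part c) : ℚ) *
        (1 / 2 : ℚ) ^ (X.face c).2.1.card =
        ∑ c : X.Corner with X.face c = f, (X.chiPart (X.part c) : ℚ) *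
        (1 / 2 : ℚ) ^ f.2.1.card := by
      refine sum_congr rfl fun c hc => ?_
      rw [(mem_filter.1 hc).2]
    have h4 : ∑ c : X.Corner with X.face c = f, (X.chiPart (X.part c) : ℚ) =
        (-1) ^ f.2.1.card := by
      have := X.cell f
      exact_mod_cast this
    rw [h2, ← sum_mul, h4, ← mul_pow]
    norm_num
  unfold BlockComplex.euler
  push_cast
  rw [h1, h3, Fintype.sum_sigma, ← sum_add_distrib]
  refine sum_congr rfl fun b _ => ?_
  congr 1
  have h3 : kappa (X.nerve b) univ =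
      ∑ τ ∈ (cliquesIn (X.nerve b) univ).erase ∅, (-1 / 2 : ℚ) ^ τ.card + 1 := by
    unfold kappa
    rw [← sum_erase_add _ _ (show ∅ ∈ cliquesIn (X.nerve b) univ by
      rw [mem_cliquesIn]; simp)]
    simp
  rw [h3, add_sub_cancel_right]
  refine Finset.sum_bij (fun σ _ => σ.1) ?_ ?_ ?_ ?_
  · intro σ _
    rw [mem_erase, mem_cliquesIn]
    exact ⟨σ.2.1.ne_empty, subset_univ _, σ.2.2⟩
  · intro a _ b _ h
    exact Subtype.ext h
  · intro c hc
    rw [mem_erase, mem_cliquesIn] at hc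
    exact ⟨⟨c, nonempty_iff_ne_empty.2 hc.1, hc.2.2⟩, mem_univ _, rfl⟩
  · intro σ _
    rfl

/-- **Hopf's inequality for manifolds cut into right-angled blocks.** -/
theorem hopf_blocks (n : ℕ) (X : BlockComplex) (r : X.Block → ℚ)
    (h : ∀ b, Piece (X.nerve b) n (X.chi b) (r b)) :
    ∑ b, r b ≤ (-1) ^ n * X.euler := by
  rw [X.euler_eq, mul_sum]
  exact sum_le_sum fun b _ => piece_sign (h b)

end Pool.Agent.Helper32.BL3
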